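import Pool.Agent.DQ2.Stmts

/-!
# Squad DQ2 (MP_366d03_ag), row DO2: dominance for `d = 2`
-/

set_option autoImplicit false

open MvPolynomial

namespace Pool.Agent.DQ2.H75

open Pool.Agent.DQ2

/-- DO2. -/
theorem do2 (hT : TAY) (hN : NUL) : DO2 := by
  intro E _ _ N F g p y hF hirr hlf hy hg
  obtain ⟨hN1, hN2⟩ := hN E N F hirr
  -- the linear form as a polynomial
  obtain ⟨ℓ, hℓ⟩ : ∃ ℓ : MvPolynomial (Fin N) E, ℓ = ∑ j, C (eval p (pderiv j F)) * X j :=
    ⟨_, rfl⟩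
  have hev : ∀ z : Fin N → E, eval z ℓ = lf F p z := by
    intro z
    rw [hℓ, map_sum]
    unfold lf
    refine Finset.sum_congr rfl fun j _ => ?_
    rw [map_mul, eval_C, eval_X]
  have hℓ0 : ℓ ≠ 0 := by
    intro h
    apply hlf
    rw [← hev, h, map_zero]
  have hdeg : ℓ.totalDegree ≤ 1 := by
    rw [hℓ]
    refine totalDegree_finsetSum_le fun j _ => ?_
    refine (totalDegree_mul _ _).trans ?_
    rw [totalDegree_C, totalDegree_X]
  have hnd : ¬ F ∣ ℓ := by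
    rintro ⟨q, hq⟩
    have hF0 : F ≠ 0 := hirr.ne_zero
    have hq0 : q ≠ 0 := by
      rintro rfl
      exact hℓ0 (by rw [hq, mul_zero])
    have h1 := totalDegree_mul_of_isDomain hF0 hq0
    rw [← hq, hF.totalDegree hF0] at h1
    omega
  obtain ⟨y1, hy1, hy1'⟩ := hN2 ℓ hnd
  obtain ⟨z, hz, hzg, hzl⟩ := hN1 g ℓ ⟨y, hy, hg⟩ ⟨y1, hy1, hy1'⟩
  rw [hev] at hzl
  obtain ⟨τ, hτ⟩ := IsAlgClosed.exists_pow_nat_eq (-(lf F p z)⁻¹) (n := 2) (by norm_num)
  obtain ⟨_, hT2, _⟩ := hT E N F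
  have hT2' := hT2 hF
  refine ⟨fun j => τ * z j, ?_⟩
  have e1 : eval (fun j => τ * z j) F = 0 := by
    have h := (hT2' z z τ 0).2.2.2
    have h2 : (fun j => τ * z j + 0 * z j) = fun j => τ * z j := by
      funext j
      ring
    rw [h2, hz] at h
    rw [h]
    ring
  have e2 : lf F (fun j => τ * z j) p = τ * lf F p z := by
    rw [(hT2' z p τ 0).2.2.1, (hT2' p z τ 0).1]
  have e3 : sec F p (fun j => τ * z j) = z := by
    funext j
    unfold sec
    rw [e1, e2]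
    have h3 : τ * lf F p z * (τ * z j) = τ ^ 2 * lf F p z * z j := by ring
    rw [h3, hτ]
    field_simp
    ring
  rw [e3]
  exact hzg

end Pool.Agent.DQ2.H75
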